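import Pool.Agent.H45.Lib.Ts3997aac3.Q276.PL.Stm

/-!
# Project PL (helper276), job PIG: an interval and a dyadic range of `y`
-/

set_option autoImplicit false

namespace Pool.Agent.Q121.PL

open Polynomial Pool.Agent.W223.HZ Pool.Agent.W223.PL Pool.Agent.Q276.PL

theorem bnd_exp (D σ z d₀ : ℝ) (m : ℕ) (hm : 1 ≤ m) (hD : 1 ≤ D) (hlm : (m : ℝ) ≤ Real.log D)
    (hσ : σ ≤ m) (hz1 : 1 ≤ z) (hzD : z ≤ D) (hd0 : 0 ≤ d₀) (hd : d₀ ≤ 2 * D) :
    2 * z * ((m : ℝ) + 1) * (2 * ((m : ℝ) + 1) * (8 * (D ^ σ * D ^ 2))) ^ (2 * (m + 1)) *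
      (D ^ (1 / (8 * (m : ℝ))) + d₀) ^ m ≤ Real.exp (40 * (m : ℝ) ^ 2 * Real.log D) := by
  have hDpos : 0 < D := by linarith
  obtain ⟨l, hl'⟩ : ∃ l, l = Real.log D := ⟨_, rfl⟩
  rw [← hl'] at hlm ⊢
  have hDe : D = Real.exp l := by rw [hl', Real.exp_log hDpos]
  have hm1 : (1 : ℝ) ≤ m := by exact_mod_cast hm
  have hl1 : 1 ≤ l := hm1.trans hlm
  have hl0 : 0 ≤ l := by linarith
  have he : 2 ≤ Real.exp l := by
    have := Real.add_one_le_exp l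
    linarith
  have he0 : 0 < Real.exp l := Real.exp_pos l
  have hz : z ≤ Real.exp l := hDe ▸ hzD
  have hmm : (m : ℝ) + 1 ≤ Real.exp l := by
    have := Real.add_one_le_exp l
    linarith
  have h3 : Real.exp (3 * l) = Real.exp l ^ 3 := by
    rw [← Real.exp_nat_mul]
    norm_num
  have h8 : (8 : ℝ) ≤ Real.exp (3 * l) := by
    rw [h3]
    have := pow_le_pow_left₀ (by norm_num : (0 : ℝ) ≤ 2) he 3
    linarith
  have hσe : D ^ σ = Real.exp (σ * l) := by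
    rw [Real.rpow_def_of_pos hDpos, ← hl', mul_comm]
  have hD2 : D ^ 2 = Real.exp (2 * l) := by
    rw [hDe, ← Real.exp_nat_mul]
    norm_num
  have hH : 8 * (D ^ σ * D ^ 2) ≤ Real.exp (6 * m * l) := by
    rw [hσe, hD2]
    calc 8 * (Real.exp (σ * l) * Real.exp (2 * l))
        ≤ Real.exp (3 * l) * (Real.exp (σ * l) * Real.exp (2 * l)) :=
          mul_le_mul_of_nonneg_right h8 (by positivity)
      _ = Real.exp (3 * l + (σ * l + 2 * l)) := by rw [Real.exp_add, Real.exp_add]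
      _ ≤ Real.exp (6 * m * l) := by
          apply Real.exp_le_exp.mpr
          have h5 : σ + 5 ≤ 6 * m := by linarith
          nlinarith [mul_le_mul_of_nonneg_right h5 hl0]
  have hH0 : 0 < 8 * (D ^ σ * D ^ 2) := by positivity
  have hK : 2 * ((m : ℝ) + 1) * (8 * (D ^ σ * D ^ 2)) ≤ Real.exp (8 * m * l) := by
    calc 2 * ((m : ℝ) + 1) * (8 * (D ^ σ * D ^ 2))
        ≤ Real.exp l * Real.exp l * Real.exp (6 * m * l) := by
          refine mul_le_mul (mul_le_mul he hmm (by positivity) he0.le) hH hH0.le (by positivity)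
      _ = Real.exp (l + l + 6 * m * l) := by rw [Real.exp_add, Real.exp_add]
      _ ≤ Real.exp (8 * m * l) := by
          apply Real.exp_le_exp.mpr
          nlinarith [mul_le_mul_of_nonneg_right hm1 hl0]
  have hKp : (2 * ((m : ℝ) + 1) * (8 * (D ^ σ * D ^ 2))) ^ (2 * (m + 1))
      ≤ Real.exp (32 * (m : ℝ) ^ 2 * l) := by
    calc (2 * ((m : ℝ) + 1) * (8 * (D ^ σ * D ^ 2))) ^ (2 * (m + 1))
        ≤ Real.exp (8 * m * l) ^ (2 * (m + 1)) := pow_le_pow_left₀ (by positivity) hK _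
      _ = Real.exp (((2 * (m + 1) : ℕ) : ℝ) * (8 * m * l)) := by rw [← Real.exp_nat_mul]
      _ ≤ Real.exp (32 * (m : ℝ) ^ 2 * l) := by
          apply Real.exp_le_exp.mpr
          push_cast
          have h5 : 2 * ((m : ℝ) + 1) * (8 * m) ≤ 32 * (m : ℝ) ^ 2 := by nlinarith
          nlinarith [mul_le_mul_of_nonneg_right h5 hl0]
  have hLD : D ^ (1 / (8 * (m : ℝ))) ≤ D := by
    have h5 : (1 : ℝ) / (8 * m) ≤ 1 := by
      rw [div_le_one (by positivity)]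
      linarith
    have := Real.rpow_le_rpow_of_exponent_le hD h5
    rwa [Real.rpow_one] at this
  have hLd : D ^ (1 / (8 * (m : ℝ))) + d₀ ≤ Real.exp (3 * l) := by
    rw [h3]
    have h5 : D ^ (1 / (8 * (m : ℝ))) + d₀ ≤ 3 * Real.exp l := by
      rw [← hDe]
      linarith
    refine h5.trans ?_
    nlinarith [mul_le_mul he he (by norm_num) he0.le]
  have hL0 : 0 < D ^ (1 / (8 * (m : ℝ))) := by positivity
  have hLp : (D ^ (1 / (8 * (m : ℝ))) + d₀) ^ m ≤ Real.exp (3 * (m : ℝ) ^ 2 * l) := by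
    calc (D ^ (1 / (8 * (m : ℝ))) + d₀) ^ m ≤ Real.exp (3 * l) ^ m :=
          pow_le_pow_left₀ (by positivity) hLd m
      _ = Real.exp ((m : ℝ) * (3 * l)) := by rw [← Real.exp_nat_mul]
      _ ≤ Real.exp (3 * (m : ℝ) ^ 2 * l) := by
          apply Real.exp_le_exp.mpr
          have h5 : (m : ℝ) * 3 ≤ 3 * (m : ℝ) ^ 2 := by nlinarith
          nlinarith [mul_le_mul_of_nonneg_right h5 hl0]
  have hf : 2 * z * ((m : ℝ) + 1) ≤ Real.exp (3 * (m : ℝ) ^ 2 * l) := by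
    calc 2 * z * ((m : ℝ) + 1) ≤ Real.exp l * Real.exp l * Real.exp l := by
          refine mul_le_mul (mul_le_mul he hz (by positivity) he0.le) hmm (by positivity)
            (by positivity)
      _ = Real.exp (l + l + l) := by rw [Real.exp_add, Real.exp_add]
      _ ≤ Real.exp (3 * (m : ℝ) ^ 2 * l) := by
          apply Real.exp_le_exp.mpr
          have h5 : (1 : ℝ) ≤ (m : ℝ) ^ 2 := by nlinarith
          nlinarith [mul_le_mul_of_nonneg_right h5 hl0]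
  calc 2 * z * ((m : ℝ) + 1) * (2 * ((m : ℝ) + 1) * (8 * (D ^ σ * D ^ 2))) ^ (2 * (m + 1)) *
        (D ^ (1 / (8 * (m : ℝ))) + d₀) ^ m
      ≤ Real.exp (3 * (m : ℝ) ^ 2 * l) * Real.exp (32 * (m : ℝ) ^ 2 * l) *
          Real.exp (3 * (m : ℝ) ^ 2 * l) := by
        refine mul_le_mul (mul_le_mul hf hKp (by positivity) (by positivity)) hLp (by positivity)
          (by positivity)
    _ = Real.exp (3 * (m : ℝ) ^ 2 * l + 32 * (m : ℝ) ^ 2 * l + 3 * (m : ℝ) ^ 2 * l) := by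
        rw [Real.exp_add, Real.exp_add]
    _ ≤ Real.exp (40 * (m : ℝ) ^ 2 * l) := by
        apply Real.exp_le_exp.mpr
        nlinarith [mul_nonneg (sq_nonneg (m : ℝ)) hl0]

theorem val_bnd (A : ℤ[X]) (m : ℕ) (K L : ℝ) (τ : ℤ) (hA : A.natDegree < m)
    (hK : ∀ k, |(A.coeff k : ℝ)| ≤ K) (hL : 1 ≤ L) (hτ : |(τ : ℝ)| ≤ L) :
    |((A.eval τ : ℤ) : ℝ)| ≤ m * K * L ^ m := by
  rw [Polynomial.eval_eq_sum_range' hA]
  push_cast
  refine (Finset.abs_sum_le_sum_abs _ _).trans ?_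
  have hK0 : 0 ≤ K := (abs_nonneg _).trans (hK 0)
  calc ∑ i ∈ Finset.range m, |(A.coeff i : ℝ) * (τ : ℝ) ^ i|
      ≤ ∑ _i ∈ Finset.range m, K * L ^ m := Finset.sum_le_sum fun i hi => by
        rw [abs_mul, abs_pow]
        have h1 : |(τ : ℝ)| ^ i ≤ L ^ m := (pow_le_pow_left₀ (abs_nonneg _) hτ i).trans
          (pow_le_pow_right₀ hL (Finset.mem_range.mp hi).le)
        exact mul_le_mul (hK i) h1 (by positivity) hK0
    _ = m * K * L ^ m := by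
        rw [Finset.sum_const, Finset.card_range, nsmul_eq_mul]
        ring

theorem log_bnd (D : ℝ) (m : ℕ) (hm : 1 ≤ m) (hD : 1 ≤ D) (hlm : (m : ℝ) ≤ Real.log D) :
    Real.log (120 * √(D ^ (1 / (8 * (m : ℝ)))) * (40 * (m : ℝ) ^ 2 * Real.log D)) ≤
      2 * (40 * (m : ℝ) ^ 2 * Real.log D) := by
  have hDpos : 0 < D := by linarith
  obtain ⟨l, hl'⟩ : ∃ l, l = Real.log D := ⟨_, rfl⟩
  rw [← hl'] at hlm ⊢
  have hDe : D = Real.exp l := by rw [hl', Real.exp_log hDpos]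
  have hm1 : (1 : ℝ) ≤ m := by exact_mod_cast hm
  have hl1 : 1 ≤ l := hm1.trans hlm
  have hm2 : (1 : ℝ) ≤ (m : ℝ) ^ 2 := by nlinarith
  obtain ⟨Λ, hΛ⟩ : ∃ Λ, Λ = 40 * (m : ℝ) ^ 2 * l := ⟨_, rfl⟩
  rw [← hΛ]
  have hΛl : 40 * l ≤ Λ := by
    rw [hΛ]
    nlinarith
  have hL1 : 1 ≤ D ^ (1 / (8 * (m : ℝ))) := Real.one_le_rpow hD (by positivity)
  have hLD : D ^ (1 / (8 * (m : ℝ))) ≤ D := by
    have h5 : (1 : ℝ) / (8 * m) ≤ 1 := by
      rw [div_le_one (by positivity)]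
      linarith
    have := Real.rpow_le_rpow_of_exponent_le hD h5
    rwa [Real.rpow_one] at this
  have hs : √(D ^ (1 / (8 * (m : ℝ)))) ≤ Real.exp (Λ / 40) := by
    have h1 : √(D ^ (1 / (8 * (m : ℝ)))) ≤ D := by
      refine le_trans ?_ hLD
      rw [Real.sqrt_le_left (by linarith)]
      nlinarith
    refine h1.trans ?_
    rw [hDe]
    exact Real.exp_le_exp.mpr (by linarith)
  have hs0 : 0 < √(D ^ (1 / (8 * (m : ℝ)))) := Real.sqrt_pos.mpr (by linarith)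
  have h120 : (120 : ℝ) ≤ Real.exp (Λ / 8) := by
    have h5 : Real.exp 5 ≤ Real.exp (Λ / 8) := Real.exp_le_exp.mpr (by linarith)
    refine le_trans ?_ h5
    have h6 : Real.exp 5 = Real.exp 1 ^ 5 := by
      rw [← Real.exp_nat_mul]
      norm_num
    rw [h6]
    have h7 : (2.7 : ℝ) ≤ Real.exp 1 := by
      have := Real.exp_one_gt_d9
      linarith
    have h8 := pow_le_pow_left₀ (by norm_num : (0 : ℝ) ≤ 2.7) h7 5
    refine le_trans ?_ h8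
    norm_num
  have hΛ0 : 0 < Λ := by linarith
  have hΛe : Λ ≤ Real.exp Λ := by
    have := Real.add_one_le_exp Λ
    linarith
  rw [Real.log_le_iff_le_exp (by positivity)]
  calc 120 * √(D ^ (1 / (8 * (m : ℝ)))) * Λ
      ≤ Real.exp (Λ / 8) * Real.exp (Λ / 40) * Real.exp Λ := by
        refine mul_le_mul (mul_le_mul h120 hs hs0.le (by positivity)) hΛe hΛ0.le (by positivity)
    _ = Real.exp (Λ / 8 + Λ / 40 + Λ) := by rw [Real.exp_add, Real.exp_add]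
    _ ≤ Real.exp (2 * Λ) := Real.exp_le_exp.mpr (by linarith)

theorem no_root {A B : ℤ[X]}
    (h : IsCoprime (A.map (Int.castRingHom ℚ)) (B.map (Int.castRingHom ℚ))) (τ : ℤ)
    (hA : A.eval τ = 0) (hB : B.eval τ = 0) : False := by
  obtain ⟨u, v, huv⟩ := h
  have h1 := congrArg (Polynomial.eval (τ : ℚ)) huv
  rw [Polynomial.eval_add, Polynomial.eval_mul, Polynomial.eval_mul,
    Polynomial.eval_intCast_map, Polynomial.eval_intCast_map, Int.cast_id, hA, hB] at h1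
  simp at h1

theorem sqrt_eq (D : ℝ) (m : ℕ) (hm : 1 ≤ m) (hD : 1 ≤ D) :
    √(D ^ (1 / (8 * (m : ℝ)))) = D ^ (1 / (16 * (m : ℝ))) := by
  have hm1 : (1 : ℝ) ≤ m := by exact_mod_cast hm
  rw [Real.sqrt_eq_rpow, ← Real.rpow_mul (by linarith)]
  congr 1
  field_simp
  norm_num

theorem deg_G (A B : ℤ[X]) (d₀ : ℤ) (m : ℕ) (hA : A.natDegree < m) (hB : B.natDegree < m) :
    (B ^ 2 - (C d₀ + X) * A ^ 2).natDegree ≤ 2 * m := by
  refine (Polynomial.natDegree_sub_le _ _).trans (max_le ?_ ?_)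
  · refine Polynomial.natDegree_pow_le.trans ?_
    omega
  · refine Polynomial.natDegree_mul_le.trans ?_
    have h1 : (C d₀ + X : ℤ[X]).natDegree ≤ 1 := by
      refine (Polynomial.natDegree_add_le _ _).trans (max_le ?_ ?_)
      · rw [Polynomial.natDegree_C]
        exact Nat.zero_le _
      · exact Polynomial.natDegree_X_le
    have h2 : (A ^ 2).natDegree ≤ 2 * A.natDegree := Polynomial.natDegree_pow_le
    omega

theorem pig (hPV : StmtPVG) (hMIN : StmtMIN) (hCUQ : StmtCUQ) (hSTR : StmtSTR)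
    (hCL : StmtCLASS) : StmtPIG := by
  obtain ⟨C₇, hC7, hPV⟩ := hPV
  refine ⟨C₇ + 10 ^ 12, by linarith, ?_⟩
  intro D V σ z m 𝒟 hD hm hσ0 hσm hCm hV1 hVD hz1 hzD h𝒟 h𝒟'
  have hm1 : (1 : ℝ) ≤ m := by exact_mod_cast hm
  have hD1 : 1 ≤ D := by linarith
  have hDpos : 0 < D := by linarith
  have hlm : (m : ℝ) ≤ Real.log D := by nlinarith
  have hl1 : 1 ≤ Real.log D := hm1.trans hlm
  have hC7m : C₇ * m ≤ Real.log D := by nlinarith
  have hσle : σ ≤ m := by nlinarith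
  obtain ⟨Λ, hΛ⟩ : ∃ Λ, Λ = 40 * (m : ℝ) ^ 2 * Real.log D := ⟨_, rfl⟩
  have hm2 : (1 : ℝ) ≤ (m : ℝ) ^ 2 := by nlinarith
  have hml : (m : ℝ) ≤ (m : ℝ) ^ 2 * Real.log D := by nlinarith
  have h40 : (40 : ℝ) * m ≤ Λ := by rw [hΛ]; linarith
  have hΛ1 : 1 ≤ Λ := by linarith
  obtain ⟨L, hL⟩ : ∃ L, L = D ^ (1 / (8 * (m : ℝ))) := ⟨_, rfl⟩
  have hL1 : 1 ≤ L := by rw [hL]; exact Real.one_le_rpow hD1 (by positivity)
  have hlog : Real.log (120 * √L * Λ) ≤ 2 * Λ := by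
    rw [hL, hΛ]
    exact log_bnd D m hm hD1 hlm
  have hsL : √L = D ^ (1 / (16 * (m : ℝ))) := by rw [hL]; exact sqrt_eq D m hm hD1
  have hsL1 : 1 ≤ √L := by rw [Real.one_le_sqrt]; exact hL1
  rw [← hL] at h𝒟'
  rw [← hsL]
  -- the reduction
  suffices hmain : ∃ M : ℤ, M ≠ 0 ∧ |(M : ℝ)| ≤ Real.exp (2 * Λ) ∧ ∃ E ⊆ 𝒟,
      (E.card : ℝ) ≤ (m : ℝ) ^ 2 + 4 * ((m : ℝ) + 1) ^ 2 + 3200000 * z * √L * Λ ^ 3 ∧
      ∀ d ∈ 𝒟 \ E, z < (Int.gcd d M : ℝ) by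
    obtain ⟨M, hM0, hM, E, hE, hEc, hgcd⟩ := hmain
    refine ⟨M, hM0, ?_, E, hE, ?_, hgcd⟩
    · have h1 : Real.log |(M : ℝ)| ≤ 2 * Λ := by
        have hpos : 0 < |(M : ℝ)| := abs_pos.mpr (by exact_mod_cast hM0)
        exact (Real.log_le_iff_le_exp hpos).mpr hM
      refine h1.trans ?_
      rw [hΛ]
      have h2 : (80 : ℝ) ≤ C₇ + 10 ^ 12 := by linarith
      have h3 : 0 ≤ (m : ℝ) ^ 2 * Real.log D := by positivity
      nlinarith [mul_le_mul_of_nonneg_right h2 h3]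
    · refine hEc.trans ?_
      obtain ⟨u, hu⟩ : ∃ u, u = (m : ℝ) ^ 2 * Real.log D := ⟨_, rfl⟩
      have hΛu : Λ = 40 * u := by rw [hΛ, hu]; ring
      rw [← hu, hΛu]
      have hu1 : 1 ≤ u := by rw [hu]; nlinarith
      have hmu : (m : ℝ) ≤ u := by rw [hu]; exact hml
      have hzs : 1 ≤ z * √L := by nlinarith
      have h1 : (m : ℝ) ^ 2 + 4 * ((m : ℝ) + 1) ^ 2 ≤ 17 * (m : ℝ) ^ 2 := by nlinarith
      have h2 : (m : ℝ) ^ 2 ≤ u := by rw [hu]; nlinarith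
      have h3 : u ≤ u ^ 3 := by nlinarith [mul_le_mul hu1 hu1 zero_le_one (by linarith : (0:ℝ) ≤ u), sq_nonneg u]
      have hu3 : 0 ≤ u ^ 3 := by positivity
      have h4 : u ^ 3 ≤ z * √L * u ^ 3 := by nlinarith
      have h5 : 3200000 * z * √L * (40 * u) ^ 3 = 204800000000 * (z * √L * u ^ 3) := by ring
      rw [h5]
      have h6 : 0 ≤ z * √L * u ^ 3 := by positivity
      have h7 : (C₇ + 10 ^ 12) * z * √L * u ^ 3 = C₇ * (z * √L * u ^ 3) + 10 ^ 12 * (z * √L * u ^ 3) := by ring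
      rw [h7]
      have h8 : 0 ≤ C₇ * (z * √L * u ^ 3) := by positivity
      linarith
  rcases 𝒟.eq_empty_or_nonempty with rfl | ⟨d₀, hd₀⟩
  · refine ⟨1, one_ne_zero, ?_, ∅, Finset.Subset.refl _, ?_, ?_⟩
    · simp only [Int.cast_one, abs_one]
      exact Real.one_le_exp (by linarith)
    · simp only [Finset.card_empty, Nat.cast_zero]
      positivity
    · intro d hd
      simp at hd
  have h4 : ∀ d ∈ 𝒟, ∃ x y : ℤ, Fund d x y ∧ V ≤ y ∧ (y : ℝ) < 2 * V := fun d hd => (h𝒟 d hd).2.2.2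
  choose! x y hxy using h4
  obtain ⟨T, hT⟩ : ∃ T : Finset ℤ, T = 𝒟.image (fun d => d - d₀) := ⟨_, rfl⟩
  have hTm : ∀ τ ∈ T, d₀ + τ ∈ 𝒟 := by
    intro τ hτ
    rw [hT, Finset.mem_image] at hτ
    obtain ⟨d, hd, rfl⟩ := hτ
    rwa [add_sub_cancel]
  have hTm' : ∀ d ∈ 𝒟, d - d₀ ∈ T := by
    intro d hd
    rw [hT]
    exact Finset.mem_image_of_mem _ hd
  -- it is enough to treat `T`
  suffices hmain : ∃ M : ℤ, M ≠ 0 ∧ |(M : ℝ)| ≤ Real.exp (2 * Λ) ∧ ∃ E ⊆ T,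
      (E.card : ℝ) ≤ (m : ℝ) ^ 2 + 4 * ((m : ℝ) + 1) ^ 2 + 3200000 * z * √L * Λ ^ 3 ∧
      ∀ τ ∈ T \ E, z < (Int.gcd (d₀ + τ) M : ℝ) by
    obtain ⟨M, hM0, hM, E, hE, hEc, hgcd⟩ := hmain
    refine ⟨M, hM0, hM, E.image (fun τ => d₀ + τ), ?_, ?_, ?_⟩
    · intro d hd
      obtain ⟨τ, hτ, rfl⟩ := Finset.mem_image.mp hd
      exact hTm τ (hE hτ)
    · refine le_trans ?_ hEc
      exact_mod_cast Finset.card_image_le
    · intro d hd
      rw [Finset.mem_sdiff] at hd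
      have h1 : d - d₀ ∈ T \ E := by
        rw [Finset.mem_sdiff]
        refine ⟨hTm' d hd.1, fun h => hd.2 ?_⟩
        rw [Finset.mem_image]
        exact ⟨d - d₀, h, by ring⟩
      have h2 := hgcd _ h1
      rwa [add_sub_cancel] at h2
  have hX : ∀ τ ∈ T, Fund (d₀ + τ) (x (d₀ + τ)) (y (d₀ + τ)) ∧ V ≤ y (d₀ + τ) ∧
      (y (d₀ + τ) : ℝ) < 2 * V := fun τ hτ => hxy _ (hTm τ hτ)
  have hτL : ∀ τ ∈ T, |(τ : ℝ)| ≤ L := by
    intro τ hτ
    have h1 := h𝒟' _ (hTm τ hτ) _ hd₀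
    push_cast at h1
    rwa [add_sub_cancel_left] at h1
  have hd0R : D ≤ d₀ ∧ (d₀ : ℝ) ≤ 2 * D := ⟨(h𝒟 d₀ hd₀).1, (h𝒟 d₀ hd₀).2.1⟩
  have hdR : ∀ τ ∈ T, D ≤ ((d₀ + τ : ℤ) : ℝ) ∧ ((d₀ + τ : ℤ) : ℝ) ≤ 2 * D := fun τ hτ =>
    ⟨(h𝒟 _ (hTm τ hτ)).1, (h𝒟 _ (hTm τ hτ)).2.1⟩
  have hd0pos : 1 ≤ d₀ := by
    have : (1 : ℝ) ≤ d₀ := hD1.trans hd0R.1
    exact_mod_cast this
  obtain ⟨W, hW⟩ : ∃ W, W = D ^ σ := ⟨_, rfl⟩
  have hW1 : 1 ≤ W := hV1.trans (hW ▸ hVD)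
  have hVW : V ≤ W := hW ▸ hVD
  obtain ⟨H, hH⟩ : ∃ H, H = 8 * (W * D ^ 2) := ⟨_, rfl⟩
  have hWD : 1 ≤ W * D ^ 2 := by nlinarith
  have hH1 : 1 ≤ H := by rw [hH]; linarith
  -- sizes
  have hLm : ∀ j ≤ m, L ^ j ≤ D := by
    intro j hj
    refine (pow_le_pow_right₀ hL1 hj).trans ?_
    rw [hL, ← Real.rpow_natCast, ← Real.rpow_mul hDpos.le]
    have h1 : 1 / (8 * (m : ℝ)) * m ≤ 1 := by
      rw [div_mul_eq_mul_div, one_mul, div_le_one (by positivity)]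
      linarith
    have := Real.rpow_le_rpow_of_exponent_le hD1 h1
    rwa [Real.rpow_one] at this
  have hxR : ∀ τ ∈ T, |(x (d₀ + τ) : ℝ)| ≤ 3 * (W * D) := by
    intro τ hτ
    obtain ⟨⟨hx1, hy1, heq, -⟩, hyV, hyV2⟩ := hX τ hτ
    have h1 : (x (d₀ + τ) : ℝ) ^ 2 - ((d₀ + τ : ℤ) : ℝ) * (y (d₀ + τ) : ℝ) ^ 2 = 1 := by
      exact_mod_cast heq
    have h2 := (hdR τ hτ).2
    have h3 : (0 : ℝ) ≤ y (d₀ + τ) := by linarith
    have h4 : (y (d₀ + τ) : ℝ) ^ 2 ≤ (2 * W) ^ 2 := pow_le_pow_left₀ h3 (by linarith) 2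
    have h5 : ((d₀ + τ : ℤ) : ℝ) * (y (d₀ + τ) : ℝ) ^ 2 ≤ 2 * D * (2 * W) ^ 2 :=
      mul_le_mul h2 h4 (by positivity) (by positivity)
    refine abs_le_of_sq_le_sq ?_ (by positivity)
    have h6 : 1 ≤ W ^ 2 := by nlinarith
    have h7 : D ≤ D ^ 2 := by nlinarith
    have h8 : W ^ 2 * D ≤ W ^ 2 * D ^ 2 := by nlinarith
    have h9 : 1 ≤ W ^ 2 * D ^ 2 := by nlinarith
    nlinarith
  have hyR : ∀ τ ∈ T, |(y (d₀ + τ) : ℝ)| ≤ 2 * W := by
    intro τ hτ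
    obtain ⟨-, hyV, hyV2⟩ := hX τ hτ
    rw [abs_of_nonneg (by linarith)]
    linarith
  have hτj : ∀ τ ∈ T, ∀ j ≤ m, |(τ : ℝ) ^ j| ≤ D := by
    intro τ hτ j hj
    rw [abs_pow]
    exact (pow_le_pow_left₀ (abs_nonneg _) (hτL τ hτ) j).trans (hLm j hj)
  have hHx : ∀ τ ∈ T, ∀ j < m, |((x (d₀ + τ) * τ ^ j : ℤ) : ℝ)| ≤ H ∧
      |((y (d₀ + τ) * τ ^ j : ℤ) : ℝ)| ≤ H := by
    intro τ hτ j hj
    push_cast
    rw [abs_mul, abs_mul, hH]
    have h1 := mul_le_mul (hxR τ hτ) (hτj τ hτ j hj.le) (abs_nonneg _) (by positivity)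
    have h2 := mul_le_mul (hyR τ hτ) (hτj τ hτ j hj.le) (abs_nonneg _) (by positivity)
    have h3 : W * D ≤ W * D ^ 2 := by nlinarith [mul_pos (by linarith : 0 < W) hDpos]
    constructor
    · refine h1.trans ?_
      nlinarith
    · refine h2.trans ?_
      nlinarith
  have hHx' : ∀ τ ∈ T, ∀ j < m + 1, |(((x (d₀ + τ) + 1) * τ ^ j : ℤ) : ℝ)| ≤ H ∧
      |((y (d₀ + τ) * τ ^ j : ℤ) : ℝ)| ≤ H := by
    intro τ hτ j hj
    push_cast
    rw [abs_mul, abs_mul, hH]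
    have h0 : |(x (d₀ + τ) : ℝ) + 1| ≤ 4 * (W * D) := by
      refine (abs_add_le _ _).trans ?_
      rw [abs_one]
      have := hxR τ hτ
      have h1 : 1 ≤ W * D := by nlinarith
      linarith
    have h1 := mul_le_mul h0 (hτj τ hτ j (Nat.lt_succ_iff.mp hj)) (abs_nonneg _) (by positivity)
    have h2 := mul_le_mul (hyR τ hτ) (hτj τ hτ j (Nat.lt_succ_iff.mp hj)) (abs_nonneg _) (by positivity)
    have h3 : W * D ≤ W * D ^ 2 := by nlinarith [mul_pos (by linarith : 0 < W) hDpos]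
    constructor
    · refine h1.trans ?_
      nlinarith
    · refine h2.trans ?_
      nlinarith
  -- the bound of all sizes
  have hbig : 2 * z * ((m : ℝ) + 1) * (2 * ((m : ℝ) + 1) * H) ^ (2 * (m + 1)) * (L + d₀) ^ m
      ≤ Real.exp Λ := by
    rw [hH, hW, hL, hΛ]
    exact bnd_exp D σ z d₀ m hm hD1 hlm hσle hz1 hzD (by linarith) hd0R.2
  -- the determinants vanish
  have hdet : ∀ f : Fin m ⊕ Fin m → ℤ, (∀ i, f i ∈ T) →
      (Mat m (fun i => x (d₀ + f i)) (fun i => y (d₀ + f i)) f).det = 0 := by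
    intro f hf
    have h1 := hPV m D V σ d₀ (fun i => x (d₀ + f i)) (fun i => y (d₀ + f i)) (fun i => d₀ + f i) hm
      (by linarith) hσ0 hσm hC7m hV1 hVD hd0R.1 hd0R.2 (fun i => hdR _ (hf i)) (fun i => ?_)
      (fun i => (hX _ (hf i)).2) (fun i => by have := (hX _ (hf i)).1.1; omega) (fun i => ?_)
    · have e : (fun i => d₀ + f i - d₀) = f := by
        funext i
        ring
      rwa [e] at h1
    · have h2 := hτL _ (hf i)
      push_cast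
      rw [add_sub_cancel_left, ← hL]
      exact h2
    · have h2 := (hX _ (hf i)).1.2.2.1
      rw [h2]
      simp only [Int.cast_one, abs_one]
      exact Real.one_le_rpow hD1 (by norm_num)
  obtain ⟨T', hT'T, hT'c, A, B, hAB, hAd, hBd, hAc, hBc, hcop, hrel⟩ :=
    hMIN m hm T (fun τ => x (d₀ + τ)) (fun τ => y (d₀ + τ)) H hH1 hHx hdet
  have hT'c' : ((T \ T').card : ℝ) ≤ (m : ℝ) ^ 2 := by exact_mod_cast hT'c
  have hposR : 0 ≤ 3200000 * z * √L * Λ ^ 3 := by positivity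
  have hm4 : 0 ≤ 4 * ((m : ℝ) + 1) ^ 2 := by positivity
  have hcard : (T.card : ℝ) ≤ T'.card + (m : ℝ) ^ 2 := by
    have h1 := Finset.card_sdiff_add_card_eq_card hT'T
    have h2 : (T.card : ℝ) = ((T \ T').card : ℝ) + T'.card := by exact_mod_cast h1.symm
    linarith
  -- all points are exceptional
  have hfin : ((T'.card : ℝ) ≤ 3200000 * z * √L * Λ ^ 3) → ∃ M : ℤ, M ≠ 0 ∧
      |(M : ℝ)| ≤ Real.exp (2 * Λ) ∧ ∃ E ⊆ T,
      (E.card : ℝ) ≤ (m : ℝ) ^ 2 + 4 * ((m : ℝ) + 1) ^ 2 + 3200000 * z * √L * Λ ^ 3 ∧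
      ∀ τ ∈ T \ E, z < (Int.gcd (d₀ + τ) M : ℝ) := by
    intro h
    refine ⟨1, one_ne_zero, ?_, T, Finset.Subset.refl _, by linarith, ?_⟩
    · simp only [Int.cast_one, abs_one]
      exact Real.one_le_exp (by linarith)
    · intro τ hτ
      simp at hτ
  rcases T'.eq_empty_or_nonempty with hT'e | ⟨τ₀, hτ₀⟩
  · apply hfin
    rw [hT'e]
    simpa using hposR
  have hA0 : A ≠ 0 := by
    intro hA
    have h1 := hrel τ₀ hτ₀
    rw [hA, Polynomial.eval_zero, mul_zero, zero_add] at h1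
    have h2 : y (d₀ + τ₀) ≠ 0 := by
      have := (hX τ₀ (hT'T hτ₀)).1.2.1
      omega
    refine no_root hcop τ₀ (by rw [hA, Polynomial.eval_zero]) ?_
    exact (mul_eq_zero.mp h1).resolve_left h2
  -- the points
  have hg : ∀ τ ∈ T', ∃ g : ℤ, g ≠ 0 ∧ A.eval τ = y (d₀ + τ) * g ∧ B.eval τ = - x (d₀ + τ) * g := by
    intro τ hτ
    have h1 := hrel τ hτ
    obtain ⟨⟨hx1, hy1, heq, -⟩, -⟩ := hX τ (hT'T hτ)
    have hcx : IsCoprime (y (d₀ + τ)) (x (d₀ + τ)) :=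
      ⟨-((d₀ + τ) * y (d₀ + τ)), x (d₀ + τ), by linear_combination heq⟩
    have h2 : y (d₀ + τ) ∣ x (d₀ + τ) * A.eval τ := by
      refine ⟨-B.eval τ, ?_⟩
      linear_combination h1
    obtain ⟨g, hg⟩ := hcx.dvd_of_dvd_mul_left h2
    have hy0 : y (d₀ + τ) ≠ 0 := by omega
    have h3 : B.eval τ = - x (d₀ + τ) * g := by
      apply mul_left_cancel₀ hy0
      rw [hg] at h1
      linear_combination h1
    refine ⟨g, fun hg0 => ?_, hg, h3⟩
    rw [hg0, mul_zero] at hg h3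
    exact no_root hcop τ hg h3
  by_cases hNS : NonSq (B ^ 2 - (C d₀ + X) * A ^ 2)
  · apply hfin
    have h1 := hCUQ (B ^ 2 - (C d₀ + X) * A ^ 2) (2 * m) (deg_G A B d₀ m hAd hBd) hNS L Λ hL1 hΛ1
      (by push_cast; linarith) T' (fun τ hτ => hτL τ (hT'T hτ)) (fun τ hτ => by
        obtain ⟨g, hg0, hgA, hgB⟩ := hg τ hτ
        obtain ⟨⟨hx1, hy1, heq, -⟩, -⟩ := hX τ (hT'T hτ)
        refine ⟨g, ?_, ?_⟩
        · rw [Polynomial.eval_sub, Polynomial.eval_mul, Polynomial.eval_pow, Polynomial.eval_pow,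
            Polynomial.eval_add, Polynomial.eval_C, Polynomial.eval_X, hgA, hgB]
          linear_combination (-g ^ 2) * heq
        · have h2 := val_bnd A m _ L τ hAd hAc hL1 (hτL τ (hT'T hτ))
          have h3 : |(g : ℝ)| ≤ |((A.eval τ : ℤ) : ℝ)| := by
            rw [hgA]
            push_cast
            rw [abs_mul]
            have h4 : (1 : ℝ) ≤ |(y (d₀ + τ) : ℝ)| := by
              rw [abs_of_nonneg (by exact_mod_cast (by omega : (0 : ℤ) ≤ y (d₀ + τ)))]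
              exact_mod_cast hy1
            nlinarith [abs_nonneg (g : ℝ)]
          refine (h3.trans h2).trans (le_trans ?_ hbig)
          have h5 : (m : ℝ) ≤ 2 * z * ((m : ℝ) + 1) := by nlinarith
          have h6 : (2 * (m : ℝ) * H) ^ (2 * m) ≤ (2 * ((m : ℝ) + 1) * H) ^ (2 * (m + 1)) := by
            have h7 : 2 * (m : ℝ) * H ≤ 2 * ((m : ℝ) + 1) * H := by nlinarith
            have h8 : 1 ≤ 2 * ((m : ℝ) + 1) * H := by nlinarith
            exact (pow_le_pow_left₀ (by positivity) h7 _).trans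
              (pow_le_pow_right₀ h8 (by omega))
          have h9 : L ^ m ≤ (L + d₀) ^ m := pow_le_pow_left₀ (by linarith) (by linarith) m
          exact mul_le_mul (mul_le_mul h5 h6 (by positivity) (by positivity)) h9 (by positivity)
            (by positivity))
    refine h1.trans ?_
    have h2 : 200000 * √L * Λ ^ 2 * Real.log (120 * √L * Λ) ≤ 200000 * √L * Λ ^ 2 * (2 * Λ) :=
      mul_le_mul_of_nonneg_left hlog (by positivity)
    refine h2.trans ?_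
    have h3 : 0 ≤ √L * Λ ^ 3 := by positivity
    have h4 : 200000 * √L * Λ ^ 2 * (2 * Λ) = 400000 * (√L * Λ ^ 3) := by ring
    have h5 : 3200000 * z * √L * Λ ^ 3 = 3200000 * (z * (√L * Λ ^ 3)) := by ring
    rw [h4, h5]
    nlinarith
  · obtain ⟨P, Q, hPQ, hPd, hQd, hPQr⟩ := hSTR m A B d₀ hA0 hAd hBd hcop hNS
    have hbase : ∀ τ ∈ T, |(τ : ℝ)| ≤ L ∧ 2 ≤ d₀ + τ ∧ Squarefree (d₀ + τ) ∧
        Fund (d₀ + τ) (x (d₀ + τ)) (y (d₀ + τ)) := by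
      intro τ hτ
      refine ⟨hτL τ hτ, ?_, (h𝒟 _ (hTm τ hτ)).2.2.1, (hX τ hτ).1⟩
      have h1 := (hdR τ hτ).1
      have h2 : (2 : ℝ) ≤ ((d₀ + τ : ℤ) : ℝ) := by linarith
      exact_mod_cast h2
    have h4m : (4 * m : ℝ) ≤ Λ := by linarith
    obtain ⟨T₁, hT₁⟩ : ∃ T₁ : Finset ℤ, T₁ = T'.filter fun τ =>
      (x (d₀ + τ) - 1) * P.eval τ + y (d₀ + τ) * Q.eval τ = 0 := ⟨_, rfl⟩
    obtain ⟨T₂, hT₂⟩ : ∃ T₂ : Finset ℤ, T₂ = T'.filter fun τ =>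
      (x (d₀ + τ) + 1) * P.eval τ + y (d₀ + τ) * Q.eval τ = 0 := ⟨_, rfl⟩
    have hT₁T : T₁ ⊆ T := by rw [hT₁]; exact (Finset.filter_subset _ _).trans hT'T
    have hT₂T : T₂ ⊆ T := by rw [hT₂]; exact (Finset.filter_subset _ _).trans hT'T
    have hT12 : ∀ τ ∈ T', τ ∈ T₁ ∨ τ ∈ T₂ := by
      intro τ hτ
      obtain ⟨g, hg0, hgA, hgB⟩ := hg τ hτ
      obtain ⟨⟨hx1, hy1, heq, -⟩, -⟩ := hX τ (hT'T hτ)
      rcases hPQr τ (x (d₀ + τ)) (y (d₀ + τ)) g hg0 hy1 heq hgA hgB with h | h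
      · left
        rw [hT₁]
        exact Finset.mem_filter.mpr ⟨hτ, h⟩
      · right
        rw [hT₂]
        exact Finset.mem_filter.mpr ⟨hτ, h⟩
    obtain ⟨M₁, hM₁0, hM₁, E₁, hE₁, hE₁c, hg₁⟩ := hCL m d₀ 1 L z Λ H T₁ (fun τ => x (d₀ + τ))
      (fun τ => y (d₀ + τ)) P Q hm (Or.inl rfl) hd0pos hL1 hz1 hΛ1 h4m hH1
      (fun τ hτ => hbase τ (hT₁T hτ)) (fun τ hτ => hHx' τ (hT₁T hτ)) hPQ hPd hQd
      (fun τ hτ => by rw [hT₁] at hτ; exact (Finset.mem_filter.mp hτ).2) hbig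
    obtain ⟨M₂, hM₂0, hM₂, E₂, hE₂, hE₂c, hg₂⟩ := hCL m d₀ (-1) L z Λ H T₂ (fun τ => x (d₀ + τ))
      (fun τ => y (d₀ + τ)) P Q hm (Or.inr rfl) hd0pos hL1 hz1 hΛ1 h4m hH1
      (fun τ hτ => hbase τ (hT₂T hτ)) (fun τ hτ => hHx' τ (hT₂T hτ)) hPQ hPd hQd
      (fun τ hτ => by
        rw [hT₂] at hτ
        have := (Finset.mem_filter.mp hτ).2
        rwa [sub_neg_eq_add]) hbig
    refine ⟨M₁ * M₂, mul_ne_zero hM₁0 hM₂0, ?_, (T \ T') ∪ (E₁ ∪ E₂), ?_, ?_, ?_⟩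
    · push_cast
      rw [abs_mul]
      calc |(M₁ : ℝ)| * |(M₂ : ℝ)| ≤ Real.exp Λ * Real.exp Λ :=
            mul_le_mul hM₁ hM₂ (abs_nonneg _) (Real.exp_pos _).le
        _ = Real.exp (2 * Λ) := by rw [← Real.exp_add]; congr 1; ring
    · refine Finset.union_subset Finset.sdiff_subset (Finset.union_subset (hE₁.trans hT₁T)
        (hE₂.trans hT₂T))
    · have h1 : (((T \ T') ∪ (E₁ ∪ E₂)).card : ℝ) ≤ ((T \ T').card : ℝ) + (E₁.card + E₂.card) := by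
        have h2 := Finset.card_union_le (T \ T') (E₁ ∪ E₂)
        have h3 := Finset.card_union_le E₁ E₂
        have h4 : ((T \ T') ∪ (E₁ ∪ E₂)).card ≤ (T \ T').card + (E₁.card + E₂.card) := by omega
        exact_mod_cast h4
      have h5 : 800000 * z * √L * Λ ^ 2 * Real.log (120 * √L * Λ) ≤
          800000 * z * √L * Λ ^ 2 * (2 * Λ) := mul_le_mul_of_nonneg_left hlog (by positivity)
      have h6 : 800000 * z * √L * Λ ^ 2 * (2 * Λ) = 1600000 * z * √L * Λ ^ 3 := by ring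
      rw [h6] at h5
      linarith
    · intro τ hτ
      rw [Finset.mem_sdiff, Finset.mem_union, Finset.mem_union, not_or, not_or] at hτ
      obtain ⟨hτT, hτ1, hτ2, hτ3⟩ := hτ
      have hτT' : τ ∈ T' := by
        by_contra h
        exact hτ1 (Finset.mem_sdiff.mpr ⟨hτT, h⟩)
      have hne : (d₀ + τ) ≠ 0 := by
        have := (hbase τ hτT).2.1
        omega
      have hgle : ∀ M : ℤ, M ∣ M₁ * M₂ → (Int.gcd (d₀ + τ) M : ℝ) ≤ Int.gcd (d₀ + τ) (M₁ * M₂) := by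
        intro M hM
        have h1 : Int.gcd (d₀ + τ) M ∣ Int.gcd (d₀ + τ) (M₁ * M₂) :=
          Int.gcd_dvd_gcd_of_dvd_right _ hM
        exact_mod_cast Nat.le_of_dvd (Int.gcd_pos_of_ne_zero_left _ hne) h1
      rcases hT12 τ hτT' with h | h
      · exact (hg₁ τ (Finset.mem_sdiff.mpr ⟨h, hτ2⟩)).trans_le (hgle M₁ (Dvd.intro _ rfl))
      · exact (hg₂ τ (Finset.mem_sdiff.mpr ⟨h, hτ3⟩)).trans_le (hgle M₂ (Dvd.intro_left _ rfl))

end Pool.Agent.Q121.PL
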